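import Pool.Agent.Helper24.FF.Stmts

/-! MP_866009_co, part F: module CLA (claws). -/

set_option autoImplicit false

namespace Pool.Agent.Helper24.FF

open Pool.Agent.Helper64.CT Pool.Agent.Helper64.DT Pool.Agent.Helper64.FL
open Pool.Agent.Helper64.HG (Ovl Model Circ IC HellyCircle ChordModel)

theorem st_CLA : ST_CLA := by
  intro V G S b hb
  constructor
  · intro n hn u hu v hv w hw a1 a2 a3 c1 c2 c3 d1 d2 d3 e1 e2 e3
    have h1 := hb.n3 n hn u hu v hv a1 a2 c1 d1
    have h2 := hb.n3 n hn u hu w hw a1 a3 c2 d2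
    have h3 := hb.n3 n hn v hv w hw a2 a3 c3 d3
    revert h1 h2 h3 e1 e2 e3
    cases b u v <;> cases b v u <;> cases b n u <;> cases b n v <;> cases b u w <;>
      cases b w u <;> cases b n w <;> cases b v w <;> cases b w v <;> simp
  · intro n hn f hf y hy y' hy' a1 a2 a3 c1 c2 d1 d2 d3
    have h1 := hb.n3 n hn f hf y hy a1 a2 c1 d1
    have h2 := hb.n3 n hn f hf y' hy' a1 a3 c2 d2
    have h3 := hb.n2 f hf y hy y' hy' ⟨fun h => c1 h.symm, d1⟩ ⟨fun h => c2 h.symm, d2⟩ d3
    revert h1 h2 h3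
    cases b f y <;> cases b y f <;> cases b n f <;> cases b n y <;> cases b f y' <;>
      cases b y' f <;> cases b n y' <;> simp

end Pool.Agent.Helper24.FF
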