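import Pool.Agent.Helper24.FF.Stmts

/-! MP_866009_co, part F: module CLW (the value of `b h` changes at a neighbour of `h`). -/

set_option autoImplicit false

namespace Pool.Agent.Helper24.FF

open Pool.Agent.Helper64.CT Pool.Agent.Helper64.DT Pool.Agent.Helper64.FL
open Pool.Agent.Helper64.HG (Ovl Model Circ IC HellyCircle ChordModel)

theorem st_CLW (h1 : ST_CLA) (h2 : ST_NCH) (h3 : ST_IPX) : ST_CLW := by
  intro V G S b h r r' l ρ f A C hb hp hh hS hr hhr hr' hhr' hρ hl hf
  obtain ⟨x1, x2, x3, x4, x5⟩ := h3 V G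
  obtain ⟨p1, p2, p3⟩ := x1 A (l :: ρ :: f :: C) hp
  have hW := x3 _ hp
  have mA : ∀ x ∈ A, x ∈ A ++ l :: ρ :: f :: C := fun x hx => List.mem_append_left _ hx
  have mR : ∀ x ∈ l :: ρ :: f :: C, x ∈ A ++ l :: ρ :: f :: C :=
    fun x hx => List.mem_append_right _ hx
  have ml : l ∈ l :: ρ :: f :: C := by simp
  have mρ : ρ ∈ l :: ρ :: f :: C := by simp
  have mf : f ∈ l :: ρ :: f :: C := by simp
  have mC : ∀ x ∈ C, x ∈ l :: ρ :: f :: C := fun x hx => by simp [hx]
  obtain ⟨q1, q2, q3, q4⟩ := p2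
  obtain ⟨q5, q6, q7, q8⟩ := q4
  obtain ⟨q9, q10, q11, q12⟩ := q8
  have alρ : G.Adj l ρ := q2 ρ rfl
  have aρf : G.Adj ρ f := q6 f rfl
  have nlf : ¬ G.Adj l f := q3 f (by simp)
  have nlC : ∀ x ∈ C, ¬ G.Adj l x := fun x hx => q3 x (by simp [hx])
  have elρ : l ≠ ρ := q1 ρ (by simp)
  have elf : l ≠ f := q1 f (by simp)
  have elC : ∀ x ∈ C, l ≠ x := fun x hx => q1 x (by simp [hx])
  have eρf : ρ ≠ f := q5 f (by simp)
  -- neighbours of `f`
  have hp' : IPt G ((A ++ [l, ρ]) ++ f :: C) := by
    rw [List.append_assoc]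
    exact hp
  have nf : ∀ z, z ∈ A ∨ z = l → ¬ G.Adj f z := by
    intro z hz ha
    have hz1 : z ∈ (A ++ [l, ρ]) ++ f :: C := by
      rcases hz with hz | hz
      · simp [hz]
      · simp [hz]
    have h5 := (x2 (A ++ [l, ρ]) C f z hp' hz1).1 ha
    have hzρ : z ≠ ρ := by
      rcases hz with hz | hz
      · exact p3 z hz ρ mρ
      · rw [hz]; exact elρ
    have hzC : z ∉ C := by
      intro hzC
      rcases hz with hz | hz
      · exact p3 z hz z (mC z hzC) rfl
      · exact elC z hzC hz.symm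
    rcases h5 with h5 | h5
    · have e : (A ++ [l, ρ]).getLast? = some ρ := by
        rw [List.getLast?_append]
        rfl
      rw [e, Option.some.injEq] at h5
      exact hzρ h5.symm
    · exact hzC (List.mem_of_head? h5)
  -- the walk from `f` to `h`
  have c1 : b l f = b l h := by
    obtain ⟨C1, C2, hC⟩ := List.append_of_mem hr'
    have hw : Wk G ((f :: (C1 ++ [r'])) ++ [h]) := by
      rw [x4]
      refine ⟨?_, ?_, ?_⟩
      · have h5 : Wk G ((A ++ [l, ρ]) ++ ((f :: (C1 ++ [r'])) ++ C2)) := by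
          have e : (A ++ [l, ρ]) ++ ((f :: (C1 ++ [r'])) ++ C2) = A ++ l :: ρ :: f :: C := by
            rw [hC]
            simp
          rw [e]
          exact hW
        rw [x4] at h5
        have h6 := h5.2.1
        rw [x4] at h6
        exact h6.1
      · exact ⟨fun z hz => absurd hz (by simp), trivial⟩
      · intro x hx y hy
        have e1 : (f :: (C1 ++ [r'])).getLast? = some r' := by
          have e0 : f :: (C1 ++ [r']) = (f :: C1) ++ [r'] := rfl
          rw [e0, List.getLast?_append]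
          rfl
        rw [e1] at hx
        have e2 : r' = x := by simpa using hx
        have e3 : h = y := by simpa using hy
        rw [← e2, ← e3]
        exact hhr'.symm
    refine h2 V G S b l _ hb (hS l (mR l ml)).1 hw ?_ f (by simp) h (by simp)
    intro x hx
    have hx1 : x = f ∨ x ∈ C ∨ x = h := by
      rw [hC]
      simp only [List.cons_append, List.append_assoc, List.mem_cons, List.mem_append,
        List.not_mem_nil, or_false] at hx ⊢
      tauto
    rcases hx1 with e | e | e
    · rw [e]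
      exact ⟨(hS f (mR f mf)).1, elf.symm, nlf⟩
    · exact ⟨(hS x (mR x (mC x e))).1, (elC x e).symm, nlC x e⟩
    · rw [e]
      exact ⟨hh, (hS l (mR l ml)).2.symm, fun ha => hl ha.symm⟩
  -- the walk from `h` to `l`
  have c2 : b f l = b f h := by
    obtain ⟨A1, A2, hA⟩ := List.append_of_mem hr
    have hw : Wk G (h :: ((r :: A2) ++ [l])) := by
      have h5 : Wk G (A1 ++ ((r :: A2 ++ [l]) ++ (ρ :: f :: C))) := by
        have e : A1 ++ ((r :: A2 ++ [l]) ++ (ρ :: f :: C)) = A ++ l :: ρ :: f :: C := by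
          rw [hA]
          simp
        rw [e]
        exact hW
      rw [x4] at h5
      have h6 := h5.2.1
      rw [x4] at h6
      refine ⟨?_, h6.1⟩
      intro z hz
      have e : r = z := by simpa using hz
      rw [← e]
      exact hhr
    refine (h2 V G S b f _ hb (hS f (mR f mf)).1 hw ?_ h (by simp) l (by simp)).symm
    intro x hx
    have hx1 : x = h ∨ x ∈ A ∨ x = l := by
      rw [hA]
      simp only [List.cons_append, List.mem_cons, List.mem_append,
        List.not_mem_nil, or_false] at hx ⊢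
      tauto
    rcases hx1 with e | e | e
    · rw [e]
      exact ⟨hh, (hS f (mR f mf)).2.symm, fun ha => hf ha.symm⟩
    · exact ⟨(hS x (mA x e)).1, p3 x e f mf, nf x (Or.inl e)⟩
    · rw [e]
      exact ⟨(hS l (mR l ml)).1, elf, nf l (Or.inr rfl)⟩
  exact (h1 V G S b hb).1 ρ (hS ρ (mR ρ mρ)).1 l (hS l (mR l ml)).1 f (hS f (mR f mf)).1 h hh
    alρ.symm aρf hρ.symm elf (hS l (mR l ml)).2 (hS f (mR f mf)).2 nlf (fun ha => hl ha.symm)
    (fun ha => hf ha.symm) c1 c2

end Pool.Agent.Helper24.FF
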