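import Pool.Agent.Helper24.FF.Stmts

/-! MP_866009_co, part F: module IPX (induced paths: parts, neighbours, walks). -/

set_option autoImplicit false

namespace Pool.Agent.Helper24.FF

open Pool.Agent.Helper64.CT Pool.Agent.Helper64.DT Pool.Agent.Helper64.FL
open Pool.Agent.Helper64.HG (Ovl Model Circ IC HellyCircle ChordModel)

variable {V : Type}

theorem ipx_app (G : SimpleGraph V) (A B : List V) (h : IPt G (A ++ B)) :
    IPt G A ∧ IPt G B ∧ ∀ x ∈ A, ∀ y ∈ B, x ≠ y := by
  induction A with
  | nil => exact ⟨trivial, h, fun x hx => absurd hx (by simp)⟩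
  | cons a A ih =>
    obtain ⟨a1, a2, a3, a4⟩ := h
    obtain ⟨b1, b2, b3⟩ := ih a4
    refine ⟨⟨fun x hx => a1 x (List.mem_append_left _ hx), ?_, ?_, b1⟩, b2, ?_⟩
    · intro b hb
      cases A with
      | nil => exact absurd hb (by simp)
      | cons c A => exact a2 b (by simpa using hb)
    · intro x hx
      cases A with
      | nil => exact absurd hx (by simp)
      | cons c A =>
        exact a3 x (List.mem_append_left B hx)
    · intro x hx y hy
      rcases List.mem_cons.1 hx with h5 | h5
      · rw [h5]
        exact a1 y (List.mem_append_right _ hy)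
      · exact b3 x h5 y hy

theorem ipx_wkapp (G : SimpleGraph V) (A B : List V) : Wk G (A ++ B) ↔
    (Wk G A ∧ Wk G B ∧ ∀ x ∈ A.getLast?, ∀ y ∈ B.head?, G.Adj x y) := by
  induction A with
  | nil =>
    constructor
    · intro h
      exact ⟨trivial, h, fun x hx => absurd hx (by simp)⟩
    · intro h
      exact h.2.1
  | cons a A ih =>
    cases A with
    | nil =>
      constructor
      · rintro ⟨h1, h2⟩
        refine ⟨⟨fun b hb => absurd hb (by simp), trivial⟩, h2, ?_⟩
        intro x hx y hy
        have e : a = x := by simpa using hx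
        rw [← e]
        exact h1 y hy
      · rintro ⟨-, h2, h3⟩
        exact ⟨fun b hb => h3 a (by simp) b hb, h2⟩
    | cons c A =>
      constructor
      · rintro ⟨h1, h2⟩
        obtain ⟨b1, b2, b3⟩ := ih.1 h2
        refine ⟨⟨?_, b1⟩, b2, ?_⟩
        · intro b hb
          exact h1 b (by simpa using hb)
        · intro x hx y hy
          rw [List.getLast?_cons_cons] at hx
          exact b3 x hx y hy
      · rintro ⟨⟨h1, h2⟩, h3, h4⟩
        refine ⟨?_, ih.2 ⟨h2, h3, ?_⟩⟩
        · intro b hb
          exact h1 b (by simpa using hb)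
        · intro x hx y hy
          refine h4 x ?_ y hy
          rw [List.getLast?_cons_cons]
          exact hx

theorem ipx_wkrev (G : SimpleGraph V) (A : List V) (h : Wk G A) : Wk G A.reverse := by
  induction A with
  | nil => trivial
  | cons a A ih =>
    obtain ⟨h1, h2⟩ := h
    rw [List.reverse_cons, ipx_wkapp]
    refine ⟨ih h2, ⟨fun b hb => absurd hb (by simp), trivial⟩, ?_⟩
    intro x hx y hy
    have e : a = y := by simpa using hy
    rw [List.getLast?_reverse] at hx
    rw [← e]
    exact (h1 x hx).symm

theorem ipx_wk (G : SimpleGraph V) (A : List V) (h : IPt G A) : Wk G A := by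
  induction A with
  | nil => trivial
  | cons a A ih => exact ⟨h.2.1, ih h.2.2.2⟩

theorem ipx_snoc (G : SimpleGraph V) (A : List V) (a : V) (h1 : IPt G A) (h2 : ∀ x ∈ A, x ≠ a)
    (h3 : ∀ x ∈ A, G.Adj x a ↔ A.getLast? = some x) : IPt G (A ++ [a]) := by
  induction A with
  | nil =>
    exact ⟨fun x hx => absurd hx (by simp), fun x hx => absurd hx (by simp),
      fun x hx => absurd hx (by simp), trivial⟩
  | cons c A ih =>
    obtain ⟨a1, a2, a3, a4⟩ := h1
    have h4 : IPt G (A ++ [a]) := by
      refine ih a4 (fun x hx => h2 x (List.mem_cons_of_mem _ hx)) (fun x hx => ?_)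
      rw [h3 x (List.mem_cons_of_mem _ hx)]
      cases A with
      | nil => exact absurd hx (by simp)
      | cons b A => rw [List.getLast?_cons_cons]
    cases A with
    | nil =>
      refine ⟨?_, ?_, ?_, h4⟩
      · intro x hx
        have e : x = a := by simpa using hx
        rw [e]
        exact h2 c (by simp)
      · intro x hx
        have e : a = x := by simpa using hx
        rw [← e, h3 c (by simp)]
        rfl
      · intro x hx
        exact absurd hx (by simp)
    | cons b A =>
      refine ⟨?_, ?_, ?_, h4⟩
      · intro x hx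
        rcases List.mem_append.1 hx with h5 | h5
        · exact a1 x h5
        · have e : x = a := by simpa using h5
          rw [e]
          exact h2 c (by simp)
      · intro x hx
        exact a2 x (by simpa using hx)
      · intro x hx
        have hx2 : x ∈ A ++ [a] := by simpa using hx
        rcases List.mem_append.1 hx2 with h5 | h5
        · exact a3 x (by simpa using h5)
        · have e : x = a := by simpa using h5
          rw [e, h3 c (by simp), List.getLast?_cons_cons]
          intro h6
          exact a1 c (List.mem_of_getLast? h6) rfl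

theorem ipx_rev (G : SimpleGraph V) (A : List V) (h : IPt G A) : IPt G A.reverse := by
  induction A with
  | nil => trivial
  | cons a A ih =>
    obtain ⟨a1, a2, a3, a4⟩ := h
    rw [List.reverse_cons]
    refine ipx_snoc G A.reverse a (ih a4)
      (fun x hx => (a1 x (List.mem_reverse.1 hx)).symm) (fun x hx => ?_)
    rw [List.getLast?_reverse]
    have hx2 := List.mem_reverse.1 hx
    cases A with
    | nil => exact absurd hx2 (by simp)
    | cons b A =>
      rw [List.head?_cons, Option.some.injEq]
      constructor
      · intro h5
        rcases List.mem_cons.1 hx2 with h6 | h6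
        · exact h6.symm
        · exact absurd h5.symm (a3 x h6)
      · intro h5
        rw [← h5]
        exact (a2 b rfl).symm

/-- neighbours of the first vertex -/
theorem ipx_hd (G : SimpleGraph V) (B : List V) (x z : V) (h : IPt G (x :: B)) (hz : z ∈ B) :
    G.Adj x z ↔ B.head? = some z := by
  obtain ⟨a1, a2, a3, a4⟩ := h
  cases B with
  | nil => exact absurd hz (by simp)
  | cons b B =>
    rw [List.head?_cons, Option.some.injEq]
    constructor
    · intro h5
      rcases List.mem_cons.1 hz with h6 | h6
      · exact h6.symm
      · exact absurd h5 (a3 z h6)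
    · intro h5
      rw [← h5]
      exact a2 b rfl

theorem ipx_nbr (G : SimpleGraph V) (A B : List V) (x z : V) (h : IPt G (A ++ x :: B))
    (hz : z ∈ A ++ x :: B) : G.Adj x z ↔ (A.getLast? = some z ∨ B.head? = some z) := by
  obtain ⟨h1, h2, h3⟩ := ipx_app G A (x :: B) h
  have hr := ipx_rev G _ h
  rw [List.reverse_append, List.reverse_cons, List.append_assoc] at hr
  obtain ⟨-, hr2, -⟩ := ipx_app G _ _ hr
  have hr3 : IPt G (x :: A.reverse) := hr2
  rcases List.mem_append.1 hz with h5 | h5
  · have e1 := ipx_hd G A.reverse x z hr3 (List.mem_reverse.2 h5)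
    rw [List.head?_reverse] at e1
    rw [e1]
    constructor
    · exact fun h6 => Or.inl h6
    · rintro (h6 | h6)
      · exact h6
      · exact absurd rfl (h3 z h5 z (List.mem_cons_of_mem _ (List.mem_of_head? h6)))
  · rcases List.mem_cons.1 h5 with h6 | h6
    · rw [h6]
      constructor
      · intro h7
        exact absurd h7 (G.loopless.irrefl x)
      · rintro (h7 | h7)
        · exact absurd rfl (h3 x (List.mem_of_getLast? h7) x (by simp))
        · exact absurd rfl (h2.1 x (List.mem_of_head? h7))
    · rw [ipx_hd G B x z h2 h6]
      constructor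
      · exact fun h7 => Or.inr h7
      · rintro (h7 | h7)
        · exact absurd rfl (h3 z (List.mem_of_getLast? h7) z (List.mem_cons_of_mem _ h6))
        · exact h7

theorem st_IPX : ST_IPX := by
  intro V G
  exact ⟨fun A B h => ipx_app G A B h, fun A B x z h hz => ipx_nbr G A B x z h hz,
    fun A h => ipx_wk G A h, fun A B => ipx_wkapp G A B, fun A h => ipx_wkrev G A h⟩

end Pool.Agent.Helper24.FF
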