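import Pool.Agent.Helper24.FF.Stmts

/-! MP_866009_co, part F: module LSM (ladders without connector minus a vertex). -/

set_option autoImplicit false

namespace Pool.Agent.Helper24.FF

open Pool.Agent.Helper64.CT Pool.Agent.Helper64.DT Pool.Agent.Helper64.FL
open Pool.Agent.Helper64.HG (Ovl Model Circ IC HellyCircle ChordModel)

theorem st_LSM (h1 : ST_LB) (h2 : ST_PH) (h3 : ST_CEC) : ST_LSM := by
  rintro V G ⟨h, k, M, a, b, hM, hc, -⟩ z
  have key : ∀ S : Set V, CE G S → (∀ v, v ≠ z → v ∈ S) → CE G {v | v ≠ z} := by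
    intro S hS hz
    exact h3 V G G S {v | v ≠ z} hS (fun v hv => hz v hv) (fun x _ y _ _ => Iff.rfl)
  rcases hc z with e | e | e
  · refine key _ (h2 V G k M hM.ip hM.kM) ?_
    intro v hv
    rcases hc v with e' | e' | e'
    · exact absurd (e'.trans e.symm) hv
    · rw [e']
      exact Set.mem_insert _ _
    · exact Or.inr e'
  · refine key _ (h2 V G h M hM.ip hM.hM) ?_
    intro v hv
    rcases hc v with e' | e' | e'
    · rw [e']
      exact Set.mem_insert _ _
    · exact absurd (e'.trans e.symm) hv
    · exact Or.inr e'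
  · obtain ⟨M1, M2, hM12⟩ := List.append_of_mem e
    refine key _ (h1 V G h k z M M1 M2 a b hM hM12) ?_
    intro v hv
    rcases hc v with e' | e' | e'
    · rw [e']
      exact Or.inl (Or.inl (Set.mem_insert _ _))
    · rw [e']
      exact Or.inl (Or.inl (Set.mem_insert_of_mem _ rfl))
    · rw [hM12] at e'
      rcases List.mem_append.1 e' with h5 | h5
      · exact Or.inl (Or.inr h5)
      · rcases List.mem_cons.1 h5 with h6 | h6
        · exact absurd h6 hv
        · exact Or.inr h6

end Pool.Agent.Helper24.FF
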