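import Pool.Agent.Helper24.FF.Stmts
import Pool.Agent.Helper38.HG.FU

/-! MP_866009_co, part F: module MRD (minimally non-circle graphs and the Naji system). -/

set_option autoImplicit false

namespace Pool.Agent.Helper24.FF

open Pool.Agent.Helper64.CT Pool.Agent.Helper64.DT Pool.Agent.Helper64.FL
open Pool.Agent.Helper64.HG (Ovl Model Circ IC HellyCircle ChordModel)

theorem st_MRD (h1 : ST_CNJ) (h2 : ST_CMC) : ST_MRD := by
  refine ⟨?_, ?_, ?_, ?_⟩
  · intro V G hM
    exact ⟨hM.df, fun z => h1 V G _ (hM.mn z)⟩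
  · intro V G S hC
    refine h1 V G S ?_
    exact Pool.Agent.Helper64.HG.st_EMB V S G (G.induce S) (SimpleGraph.Embedding.induce S) hC
  · intro V _ G S hS hC
    have h : Circ (G.induce S) := h2 V G S hC
    refine Pool.Agent.Helper64.HG.st_EMB S V (G.induce S) G
      ⟨⟨fun x => ⟨x, hS x⟩, fun x y e => congrArg Subtype.val e⟩, Iff.rfl⟩ h
  · intro V _ G hd hn hz
    exact ⟨hd, hn, fun z => h2 V G _ (hz z)⟩

end Pool.Agent.Helper24.FF
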