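import Pool.Agent.Helper24.FF.Stmts

/-! MP_866009_co, part F: module NCH (Naji systems on walks). -/

set_option autoImplicit false

namespace Pool.Agent.Helper24.FF

open Pool.Agent.Helper64.CT Pool.Agent.Helper64.DT Pool.Agent.Helper64.FL
open Pool.Agent.Helper64.HG (Ovl Model Circ IC HellyCircle ChordModel)

theorem st_NCH : ST_NCH := by
  intro V G S b c N hb hc
  induction N with
  | nil => intro _ _ x hx; exact absurd hx (by simp)
  | cons a N ih =>
    intro hw hf
    have h1 := ih hw.2 (fun x hx => hf x (List.mem_cons_of_mem _ hx))
    have key : ∀ x ∈ N, b c a = b c x := by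
      intro x hx
      cases N with
      | nil => exact absurd hx (by simp)
      | cons d N =>
        have h2 : b c a = b c d := hb.n2 c hc a (hf a (by simp)).1 d (hf d (by simp)).1
          (hf a (by simp)).2 (hf d (by simp)).2 (hw.1 d rfl)
        rw [h2]
        exact h1 d (by simp) x hx
    intro x hx y hy
    rcases List.mem_cons.1 hx with e | e
    · rcases List.mem_cons.1 hy with e' | e'
      · rw [e, e']
      · rw [e]
        exact key y e'
    · rcases List.mem_cons.1 hy with e' | e'
      · rw [e']
        exact (key x e).symm
      · exact h1 x e y e'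

end Pool.Agent.Helper24.FF
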