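import Pool.Agent.Helper24.FF.Stmts

/-! MP_866009_co, part F: module NNS (Naji systems, restriction). -/

set_option autoImplicit false

namespace Pool.Agent.Helper24.FF

open Pool.Agent.Helper64.CT Pool.Agent.Helper64.DT Pool.Agent.Helper64.FL
open Pool.Agent.Helper64.HG (Ovl Model Circ IC HellyCircle ChordModel)

theorem st_NNS : ST_NNS := by
  intro V G S
  refine ⟨⟨?_, ?_⟩, ?_⟩
  · rintro ⟨b, h1, h2, h3⟩
    exact ⟨b, h1, h2, h3⟩
  · rintro ⟨b, hb⟩
    exact ⟨b, hb.n1, hb.n2, hb.n3⟩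
  · rintro T hT ⟨b, h1, h2, h3⟩
    exact ⟨b, fun x hx y hy => h1 x (hT hx) y (hT hy),
      fun c hc x hx y hy => h2 c (hT hc) x (hT hx) y (hT hy),
      fun n hn v hv w hw => h3 n (hT hn) v (hT hv) w (hT hw)⟩

end Pool.Agent.Helper24.FF
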