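import Pool.Agent.Helper24.FF.Stmts

/-! MP_866009_co, part F: module PE1 (a vertex with at most one neighbour). -/

set_option autoImplicit false

namespace Pool.Agent.Helper24.FF

open Pool.Agent.Helper64.CT Pool.Agent.Helper64.DT Pool.Agent.Helper64.FL
open Pool.Agent.Helper64.HG (Ovl Model Circ IC HellyCircle ChordModel)

theorem st_PE1 (h1 : ST_INS) (h2 : ST_SCL) : ST_PE1 := by
  intro V G S x hC hx hu
  obtain ⟨a, b, hM⟩ := hC
  obtain ⟨hM2, -⟩ := h2 V G S a b hM
  by_cases hn : ∃ u ∈ S, G.Adj x u
  · obtain ⟨u, hu1, hu2⟩ := hn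
    obtain ⟨h3, -, -⟩ := h1 V G S (fun v => 2 * a v) (fun v => 2 * b v) x (2 * a u - 1)
      (2 * a u + 1) hM2 hx (by unfold Od; omega) (by unfold Od; omega) (by omega) (by
        intro y hy
        have e1 := hM.pa u hu1
        have e2 := hM.pb u hu1
        have e3 := hM.ne u hu1
        have e4 := hM.pa y hy
        have e5 := hM.pb y hy
        by_cases hyu : y = u
        · rw [hyu]
          refine ⟨fun _ => hu2, fun _ => ?_⟩
          dsimp only [bt]
          omega
        · have e6 := hM.ds y hy u hu1 hyu
          refine ⟨fun h => ?_, fun h => absurd (hu y hy u hu1 h hu2) hyu⟩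
          exfalso
          apply h
          dsimp only [bt]
          omega)
    exact ⟨_, _, h3⟩
  · by_cases hne : S.Nonempty
    · obtain ⟨u, hu1⟩ := hne
      obtain ⟨h3, -, -⟩ := h1 V G S (fun v => 2 * a v) (fun v => 2 * b v) x (2 * a u + 1)
        (2 * a u + 3) hM2 hx (by unfold Od; omega) (by unfold Od; omega) (by omega) (by
          intro y hy
          have e1 := hM.pa u hu1
          have e4 := hM.pa y hy
          have e5 := hM.pb y hy
          refine ⟨fun h => ?_, fun h => absurd ⟨y, hy, h⟩ hn⟩
          exfalso
          apply h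
          dsimp only [bt]
          omega)
      exact ⟨_, _, h3⟩
    · have e : S = ∅ := Set.not_nonempty_iff_eq_empty.1 hne
      rw [e]
      have key : ∀ y ∈ (insert x ∅ : Set V), y = x := by
        intro y hy
        simpa using hy
      refine ⟨fun _ => 0, fun _ => 2, ?_, ?_, ?_, ?_, ?_⟩
      · intro v _; rfl
      · intro v _; rfl
      · intro v _; norm_num
      · intro u hu v hv huv
        exact absurd ((key u hu).trans (key v hv).symm) huv
      · intro u hu v hv huv
        exact absurd ((key u hu).trans (key v hv).symm) huv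

end Pool.Agent.Helper24.FF
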