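import Pool.Agent.Helper24.FF.Stmts

/-! MP_866009_co, part F: module PEL (a pendant path). -/

set_option autoImplicit false

namespace Pool.Agent.Helper24.FF

open Pool.Agent.Helper64.CT Pool.Agent.Helper64.DT Pool.Agent.Helper64.FL
open Pool.Agent.Helper64.HG (Ovl Model Circ IC HellyCircle ChordModel)

theorem st_PEL (h1 : ST_PE1) : ST_PEL := by
  intro V G S A
  induction A generalizing S with
  | nil =>
    intro hS _ _ _ _
    have e : S ∪ LS ([] : List V) = S := by
      ext x
      simp [LS]
    rw [e]
    exact hS
  | cons x A ih =>
    intro hS hA hd hh hu
    obtain ⟨a1, a2, a3, a4⟩ := hA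
    have hx : CE G (insert x S) := h1 V G S x hS (hd x (List.mem_cons_self ..))
      (fun y hy z hz h2 h3 => hu x (List.mem_cons_self ..) y hy z hz h2 h3)
    have key : ∀ y ∈ A, ∀ z ∈ S, ¬ G.Adj y z := by
      intro y hy z hz h
      have h2 := hh y (List.mem_cons_of_mem _ hy) z hz h
      rw [List.head?_cons, Option.some.injEq] at h2
      exact a1 y hy h2
    have h4 := ih (insert x S) hx a4
      (fun y hy h => by
        rcases h with h | h
        · exact a1 y hy h.symm
        · exact hd y (List.mem_cons_of_mem _ hy) h)
      (fun y hy z hz h => by
        rcases hz with hz | hz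
        · rw [hz] at h
          cases A with
          | nil => exact absurd hy (by simp)
          | cons c A =>
            rcases List.mem_cons.1 hy with h5 | h5
            · rw [h5, List.head?_cons]
            · exact absurd h.symm (a3 y h5)
        · exact absurd h (key y hy z hz))
      (fun y hy z hz w hw h2 h3 => by
        rcases hz with hz | hz
        · rcases hw with hw | hw
          · rw [hz, hw]
          · exact absurd h3 (key y hy w hw)
        · exact absurd h2 (key y hy z hz))
    have e : S ∪ LS (x :: A) = insert x S ∪ LS A := by
      ext y
      simp only [LS, Set.mem_union, Set.mem_ofPred_eq, List.mem_cons, Set.mem_insert_iff]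
      tauto
    rw [e]
    exact h4

end Pool.Agent.Helper24.FF
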