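import Pool.Agent.Helper24.FF.Stmts

/-! MP_866009_co, part F: module RUB (counting rungs). -/

set_option autoImplicit false

namespace Pool.Agent.Helper24.FF

open Pool.Agent.Helper64.CT Pool.Agent.Helper64.DT Pool.Agent.Helper64.FL
open Pool.Agent.Helper64.HG (Ovl Model Circ IC HellyCircle ChordModel)

theorem st_RUB : ST_RUB := by
  intro V G h k
  classical
  refine ⟨?_, ?_, ?_, ?_, ?_, ?_, ?_⟩
  · simp [rungs]
  · intro x A hx
    unfold rungs
    rw [List.filter_cons_of_pos (by simpa using hx), List.length_cons]
  · intro x A hx
    unfold rungs
    rw [List.filter_cons_of_neg (by simpa using hx)]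
  · intro A B
    unfold rungs
    rw [List.filter_append, List.length_append]
  · intro A
    unfold rungs
    rw [List.filter_reverse, List.length_reverse]
  · intro A
    unfold rungs
    have e : (fun x => decide (G.Adj k x ∧ G.Adj h x)) = fun x => decide (G.Adj h x ∧ G.Adj k x) := by
      funext x
      rw [decide_eq_decide]
      exact and_comm
    rw [e]
  · intro A
    unfold rungs
    rw [List.length_eq_zero_iff, List.filter_eq_nil_iff]
    simp

end Pool.Agent.Helper24.FF
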