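import Pool.Agent.Helper24.FF.Stmts
import Pool.Agent.Helper11.FL.CRT
import Pool.Agent.Helper71.FL.PXI
import Pool.Agent.Helper90.FL.TBS

/-! MP_866009_co, part F: module TNC (the entries are not circle graphs). -/

set_option autoImplicit false

namespace Pool.Agent.Helper24.FF

open Pool.Agent.Helper64.CT Pool.Agent.Helper64.DT Pool.Agent.Helper64.FL
open Pool.Agent.Helper64.HG (Ovl Model Circ IC HellyCircle ChordModel)

theorem st_TNC (h1 : ST_TMD) (h2 : ST_MRD) : ST_TNC := by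
  intro V G D hR hE hC
  obtain ⟨f, P, hRW⟩ := real_iff.1 hR
  simp only [okE, Bool.and_eq_true] at hE
  obtain ⟨⟨⟨⟨⟨⟨e1, e2⟩, e3⟩, e4⟩, e5⟩, e6⟩, e7⟩ := hE
  obtain ⟨L, hL⟩ := h1 V G D.T f P hRW (Nat.le_of_ble_eq_true e1) e3 e5
  have h := st_CRT st_TBS st_PXI V G (sT D.T) f L 32 D.c D.m Set.univ hL (h2.2.1 V G _ hC)
    (fun _ _ _ => trivial) (fun _ _ _ _ => trivial)
  rw [h] at e7
  exact absurd e7 (by simp)

end Pool.Agent.Helper24.FF
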