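import Pool.Agent.Helper24.FF.Stmts

/-! MP_866009_co, part F: module TOK (meaning of the recursive checks). -/

set_option autoImplicit false

namespace Pool.Agent.Helper24.FF

open Pool.Agent.Helper64.CT Pool.Agent.Helper64.DT Pool.Agent.Helper64.FL
open Pool.Agent.Helper64.HG (Ovl Model Circ IC HellyCircle ChordModel)

theorem tok_memp (i j : ℕ) (l : List (ℕ × ℕ)) :
    memp i j l = true ↔ ((i, j) ∈ l ∨ (j, i) ∈ l) := by
  induction l with
  | nil => simp [memp]
  | cons p l ih =>
    obtain ⟨a, b⟩ := p
    simp only [memp, Bool.or_eq_true, Bool.and_eq_true, ih, Nat.beq_eq, List.mem_cons,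
      Prod.mk.injEq]
    constructor
    · rintro ((⟨h1, h2⟩ | ⟨h1, h2⟩) | h | h)
      · exact Or.inl (Or.inl ⟨h1.symm, h2.symm⟩)
      · exact Or.inr (Or.inl ⟨h1.symm, h2.symm⟩)
      · exact Or.inl (Or.inr h)
      · exact Or.inr (Or.inr h)
    · rintro ((⟨h1, h2⟩ | h) | (⟨h1, h2⟩ | h))
      · exact Or.inl (Or.inl ⟨h1.symm, h2.symm⟩)
      · exact Or.inr (Or.inl h)
      · exact Or.inl (Or.inr ⟨h1.symm, h2.symm⟩)
      · exact Or.inr (Or.inr h)

theorem tok_adT (T : Ent) (i j : ℕ) : adT T i j = adT T j i := by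
  have h : ∀ l : List (ℕ × ℕ), memp i j l = memp j i l := by
    intro l
    rw [Bool.eq_iff_iff, tok_memp, tok_memp]
    exact or_comm
  unfold adT
  rw [h, h]

theorem tok_okW (T : Ent) (W : List (List ℕ)) : ∀ s : ℕ, okW T s W = true → ∀ i w,
    W[i]? = some w → okw T (s + i) w = true := by
  induction W with
  | nil =>
    intro s _ i w h
    exact absurd h (by simp)
  | cons v W ih =>
    intro s h i w hi
    simp only [okW, Bool.and_eq_true] at h
    cases i with
    | zero =>
      have e : v = w := by simpa using hi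
      rw [← e]
      exact h.1
    | succ i =>
      have h2 := ih (s + 1) h.2 i w (by simpa using hi)
      have e : s + 1 + i = s + (i + 1) := by omega
      rwa [e] at h2

theorem tok_okp2 (n : ℕ) (l : List (ℕ × ℕ)) (h : okp2 n l = true) :
    ∀ p ∈ l, p.1 < n ∧ p.2 < n ∧ p.1 ≠ p.2 := by
  induction l with
  | nil => intro p hp; exact absurd hp (by simp)
  | cons q l ih =>
    obtain ⟨a, b⟩ := q
    simp only [okp2, Bool.and_eq_true, Nat.blt_eq, Bool.not_eq_true'] at h
    obtain ⟨⟨⟨h1, h2⟩, h3⟩, h4⟩ := h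
    intro p hp
    rcases List.mem_cons.1 hp with e | e
    · rw [e]
      refine ⟨h1, h2, ?_⟩
      intro h5
      have h6 : a = b := h5
      rw [h6, Nat.beq_refl] at h3
      exact absurd h3 (by simp)
    · exact ih h4 p e

theorem tok_onl (T : Ent) (i b j m : ℕ) (h : onl T i b j m = true) :
    ∀ k, k < m → k ≠ b → k ≠ j → adT T i k = false := by
  induction m with
  | zero => intro k hk; omega
  | succ m ih =>
    simp only [onl, Bool.and_eq_true, Bool.or_eq_true, Nat.beq_eq, Bool.not_eq_true'] at h
    intro k hk h1 h2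
    rcases Nat.lt_succ_iff_lt_or_eq.1 hk with h3 | h3
    · exact ih h.2 k h3 h1 h2
    · rw [h3] at h1 h2 ⊢
      rcases h.1 with (h4 | h4) | h4
      · exact absurd h4 h1
      · exact absurd h4 h2
      · exact h4

theorem tok_deg2 (T : Ent) (i b m : ℕ) (h : deg2 T i b m = true) :
    ∃ j, onl T i b j T.n = true := by
  induction m with
  | zero => exact absurd h (by simp [deg2])
  | succ m ih =>
    simp only [deg2, Bool.or_eq_true] at h
    rcases h with h | h
    · exact ⟨m, h⟩
    · exact ih h

theorem tok_ncm (T : Ent) (i j m : ℕ) (h : ncm T i j m = true) :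
    ∀ k, k < m → ¬ (adT T i k = true ∧ adT T j k = true) := by
  induction m with
  | zero => intro k hk; omega
  | succ m ih =>
    simp only [ncm, Bool.and_eq_true, Bool.not_eq_true'] at h
    intro k hk h1
    rcases Nat.lt_succ_iff_lt_or_eq.1 hk with h3 | h3
    · exact ih h.2 k h3 h1
    · rw [h3] at h1
      rw [h1.1, h1.2] at h
      exact absurd h.1 (by simp)

theorem tok_dsj (a b : ℕ) (l : List (ℕ × ℕ)) (h : oke.dsj a b l = true) :
    ∀ p ∈ l, a ≠ p.1 ∧ a ≠ p.2 ∧ b ≠ p.1 ∧ b ≠ p.2 := by
  induction l with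
  | nil => intro p hp; exact absurd hp (by simp)
  | cons q l ih =>
    obtain ⟨c, d⟩ := q
    simp only [oke.dsj, Bool.and_eq_true, Bool.not_eq_true'] at h
    obtain ⟨⟨⟨⟨h1, h2⟩, h3⟩, h4⟩, h5⟩ := h
    intro p hp
    have key : ∀ x y : ℕ, Nat.beq x y = false → x ≠ y := by
      intro x y hxy e
      rw [e, Nat.beq_refl] at hxy
      exact absurd hxy (by simp)
    rcases List.mem_cons.1 hp with e | e
    · rw [e]
      exact ⟨key _ _ h1, key _ _ h2, key _ _ h3, key _ _ h4⟩
    · exact ih h5 p e

theorem tok_oke (T : Ent) (l : List (ℕ × ℕ)) (h : oke T l = true) :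
    (∀ e a b : ℕ, l[e]? = some (a, b) → a < T.n ∧ b < T.n ∧ a ≠ b ∧
    (∀ i j, i < T.n → j < T.n → i ≠ b → j ≠ b → adT T a i = true → adT T a j = true → i = j) ∧
    (∀ i j, i < T.n → j < T.n → i ≠ a → j ≠ a → adT T b i = true → adT T b j = true → i = j) ∧
    (∀ i, i < T.n → ¬ (adT T a i = true ∧ adT T b i = true)) ∧ memp a b T.rg = false) ∧
    ∀ e e' a b c d : ℕ, e < e' → l[e]? = some (a, b) → l[e']? = some (c, d) →
      a ≠ c ∧ a ≠ d ∧ b ≠ c ∧ b ≠ d := by
  induction l with
  | nil =>
    refine ⟨fun e a b h1 => absurd h1 (by simp), fun e e' a b c d _ h1 => absurd h1 (by simp)⟩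
  | cons q l ih =>
    obtain ⟨a0, b0⟩ := q
    simp only [oke, Bool.and_eq_true, Nat.blt_eq, Bool.not_eq_true'] at h
    obtain ⟨⟨⟨⟨⟨⟨⟨⟨h1, h2⟩, h3⟩, h4⟩, h5⟩, h6⟩, h7⟩, h8⟩, h9⟩ := h
    obtain ⟨i1, i2⟩ := ih h9
    have key : ∀ a b m : ℕ, deg2 T a b m = true → ∀ i j, i < T.n → j < T.n → i ≠ b → j ≠ b →
        adT T a i = true → adT T a j = true → i = j := by
      intro a b m hm i j hi hj hib hjb hai haj
      obtain ⟨k, hk⟩ := tok_deg2 T a b m hm
      have e1 : i = k := by
        by_contra hne
        rw [tok_onl T a b k T.n hk i hi hib hne] at hai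
        exact absurd hai (by simp)
      have e2 : j = k := by
        by_contra hne
        rw [tok_onl T a b k T.n hk j hj hjb hne] at haj
        exact absurd haj (by simp)
      rw [e1, e2]
    constructor
    · intro e a b he
      cases e with
      | zero =>
        have e1 : (a0, b0) = (a, b) := by simpa using he
        rw [Prod.mk.injEq] at e1
        obtain ⟨e1, e2⟩ := e1
        rw [← e1, ← e2]
        refine ⟨h1, h2, ?_, key a0 b0 T.n h4, key b0 a0 T.n h5, tok_ncm T a0 b0 T.n h6, h7⟩
        intro e3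
        rw [e3, Nat.beq_refl] at h3
        exact absurd h3 (by simp)
      | succ e => exact i1 e a b (by simpa using he)
    · intro e e' a b c d hlt he he'
      cases e' with
      | zero => omega
      | succ e' =>
        have he2 : l[e']? = some (c, d) := by simpa using he'
        cases e with
        | zero =>
          have e1 : (a0, b0) = (a, b) := by simpa using he
          rw [Prod.mk.injEq] at e1
          obtain ⟨e1, e2⟩ := e1
          rw [← e1, ← e2]
          exact tok_dsj a0 b0 l h8 (c, d) (List.mem_of_getElem? he2)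
        | succ e => exact i2 e e' a b c d (by omega) (by simpa using he) he2

theorem tok_ndk (T : Ent) (i j k m : ℕ) (h : ndi.ndk T i j k m = true) :
    ∀ l, l < m → adT T i l = true → adT T j l = true → adT T k l = true := by
  induction m with
  | zero => intro l hl; omega
  | succ m ih =>
    simp only [ndi.ndk, Bool.and_eq_true, Bool.or_eq_true, Bool.not_eq_true'] at h
    intro l hl h1 h2
    rcases Nat.lt_succ_iff_lt_or_eq.1 hl with h3 | h3
    · exact ih h.2 l h3 h1 h2
    · rw [h3] at h1 h2 ⊢
      rcases h.1 with h4 | h4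
      · rw [h1, h2] at h4
        exact absurd h4 (by simp)
      · exact h4

theorem tok_ndi (T : Ent) (i j m : ℕ) (h : ndi T i j m = true) :
    ∀ k, k < m → adT T i k = true → adT T j k = true → ndi.ndk T i j k k = true := by
  induction m with
  | zero => intro l hl; omega
  | succ m ih =>
    simp only [ndi, Bool.and_eq_true, Bool.or_eq_true, Bool.not_eq_true'] at h
    intro l hl h1 h2
    rcases Nat.lt_succ_iff_lt_or_eq.1 hl with h3 | h3
    · exact ih h.2 l h3 h1 h2
    · rw [h3] at h1 h2 ⊢
      rcases h.1 with h4 | h4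
      · rw [h1, h2] at h4
        exact absurd h4 (by simp)
      · exact h4

theorem tok_ndj (T : Ent) (i m : ℕ) (h : ndj T i m = true) :
    ∀ j, j < m → adT T i j = true → ndi T i j T.n = true := by
  induction m with
  | zero => intro l hl; omega
  | succ m ih =>
    simp only [ndj, Bool.and_eq_true, Bool.or_eq_true, Bool.not_eq_true'] at h
    intro l hl h1
    rcases Nat.lt_succ_iff_lt_or_eq.1 hl with h3 | h3
    · exact ih h.2 l h3 h1
    · rw [h3] at h1 ⊢
      rcases h.1 with h4 | h4
      · rw [h1] at h4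
        exact absurd h4 (by simp)
      · exact h4

theorem tok_okDf (T : Ent) (m : ℕ) (h : okDf T m = true) :
    ∀ i, i < m → ndj T i i = true := by
  induction m with
  | zero => intro l hl; omega
  | succ m ih =>
    simp only [okDf, Bool.and_eq_true] at h
    intro l hl
    rcases Nat.lt_succ_iff_lt_or_eq.1 hl with h3 | h3
    · exact ih h.2 l h3
    · rw [h3]
      exact h.1

theorem st_TOK : ST_TOK := by
  intro T
  refine ⟨tok_memp, ?_, tok_okp2 T.n T.rg, tok_oke T T.el, ?_⟩
  · intro W hW i w hi
    have h := tok_okW T W 0 hW i w hi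
    rwa [Nat.zero_add] at h
  · intro h i j k l hi hj hk hl hij h1 h2 h3 h4 h5 hkl
    have key : ∀ i j, i < T.n → j < i → adT T i j = true → ∀ k l, k < T.n → l < k →
        adT T i k = true → adT T j k = true → adT T i l = true → adT T j l = true →
        adT T k l = true := by
      intro i j hi hji hij k l hk hlk a1 a2 a3 a4
      have b1 := tok_okDf T T.n h i hi
      have b2 := tok_ndj T i i b1 j hji hij
      have b3 := tok_ndi T i j T.n b2 k hk a1 a2
      exact tok_ndk T i j k k b3 l hlk a3 a4
    have key2 : ∀ i j, i < T.n → j < T.n → i ≠ j → adT T i j = true → ∀ k l, k < T.n → l < k →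
        adT T i k = true → adT T j k = true → adT T i l = true → adT T j l = true →
        adT T k l = true := by
      intro i j hi hj hij hd k l hk hlk a1 a2 a3 a4
      rcases Nat.lt_or_gt_of_ne hij with h6 | h6
      · exact key j i hj h6 (by rw [tok_adT]; exact hd) k l hk hlk a2 a1 a4 a3
      · exact key i j hi h6 hd k l hk hlk a1 a2 a3 a4
    rcases Nat.lt_or_gt_of_ne hkl with h6 | h6
    · rw [tok_adT]
      exact key2 i j hi hj hij h1 l k hl h6 h4 h5 h2 h3
    · exact key2 i j hi hj hij h1 k l hk h6 h2 h3 h4 h5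

end Pool.Agent.Helper24.FF
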