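import Pool.Agent.Helper24.FF.Stmts
import Pool.Agent.Helper11.FL.CRT
import Pool.Agent.Helper71.FL.PXI
import Pool.Agent.Helper90.FL.TBS
import Pool.Agent.Helper14.FF.IPX

/-! MP_866009_co, part F: module W1 (two hubs, a connector and a path). -/

set_option autoImplicit false

namespace Pool.Agent.Helper24.FF

open Pool.Agent.Helper64.CT Pool.Agent.Helper64.DT Pool.Agent.Helper64.FL
open Pool.Agent.Helper64.HG (Ovl Model Circ IC HellyCircle ChordModel)

theorem w1_key (h1 : ST_W1C) (h2 : ST_W1M) (V : Type) (G : SimpleGraph V) (h k : V)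
    (D P : List V) (hd : DF G) (hW : W1c G h k D P) (hp : ∀ x ∈ P.head?, G.Adj h x) :
    ¬ NAJ G ({h, k} ∪ LS D ∪ LS P) := by
  intro hN
  obtain ⟨ab, dl, f, L, hM, hf, hL⟩ := h2 V G h k D P hd hW hp
  have h3 := st_CRT st_TBS st_PXI V G (w1s ab dl) f L 32 (w1m ab dl).1 (w1m ab dl).2 _ hM hN
    (fun i hi _ => hf i hi) hL
  rw [h1 ab dl] at h3
  exact absurd h3 (by simp)

theorem st_W1 (h1 : ST_W1C) (h2 : ST_W1M) : ST_W1 := by
  intro V G h k D P hd hW
  obtain ⟨r1, hr1, r2, hr2, hr12, c1, c2, c3, c4⟩ := hW.rng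
  obtain ⟨p, P', hP⟩ : ∃ p P', P = p :: P' := by
    cases P with
    | nil => exact absurd hr1 (by simp)
    | cons p P' => exact ⟨p, P', rfl⟩
  rcases hW.fst p (by rw [hP]; rfl) with hp | hp
  · refine w1_key h1 h2 V G h k D P hd hW ?_
    intro x hx
    rw [hP] at hx
    have e : p = x := by simpa using hx
    rw [← e]
    exact hp.1
  · have hW' : W1c G k h D.reverse P := by
      refine ⟨hW.hk.symm, fun ha => hW.nhk ha.symm, ?_, ipx_rev G D hW.iD, hW.iP, ?_, ?_, hW.kP,
        hW.hP, ?_, ?_, ?_, ?_, ?_, ?_⟩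
      · intro e
        exact hW.D0 (List.reverse_eq_nil_iff.1 e)
      · intro hm
        exact hW.kD (List.mem_reverse.1 hm)
      · intro hm
        exact hW.hD (List.mem_reverse.1 hm)
      · intro x hx
        rw [List.head?_reverse]
        exact hW.bD x (List.mem_reverse.1 hx)
      · intro x hx
        rw [List.getLast?_reverse]
        exact hW.aD x (List.mem_reverse.1 hx)
      · intro x hx
        exact hW.DP x (List.mem_reverse.1 hx)
      · intro x hx
        rcases hW.fst x hx with h5 | h5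
        · exact Or.inr ⟨h5.2, h5.1⟩
        · exact Or.inl ⟨h5.2, h5.1⟩
      · intro x hx
        rcases hW.lst x hx with h5 | h5
        · exact Or.inr ⟨h5.2, h5.1⟩
        · exact Or.inl ⟨h5.2, h5.1⟩
      · exact ⟨r1, hr1, r2, hr2, hr12, c2, c1, c4, c3⟩
    have h5 := w1_key h1 h2 V G k h D.reverse P hd hW' (by
      intro x hx
      rw [hP] at hx
      have e : p = x := by simpa using hx
      rw [← e]
      exact hp.2)
    have e : ({h, k} ∪ LS D ∪ LS P : Set V) = {k, h} ∪ LS D.reverse ∪ LS P := by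
      ext x
      simp only [LS, Set.mem_union, Set.mem_insert_iff, Set.mem_singleton_iff, Set.mem_ofPred_eq,
        List.mem_reverse]
      tauto
    rw [e]
    exact h5

end Pool.Agent.Helper24.FF
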