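import Pool.Agent.Helper24.FF.Stmts

/-! MP_866009_co, part F: module W3 (a triangle and a further vertex). -/

set_option autoImplicit false

namespace Pool.Agent.Helper24.FF

open Pool.Agent.Helper64.CT Pool.Agent.Helper64.DT Pool.Agent.Helper64.FL
open Pool.Agent.Helper64.HG (Ovl Model Circ IC HellyCircle ChordModel)

theorem w3_cl (V : Type) (G : SimpleGraph V) (S : Set V) (p : V → ℤ)
    (h0 : ∀ v ∈ S, p v % 2 = 0 ∧ 0 ≤ p v ∧ p v < 8) (h1 : ∀ u ∈ S, ∀ v ∈ S, u ≠ v → p u ≠ p v)
    (h2 : ∀ u ∈ S, ∀ v ∈ S, u ≠ v → G.Adj u v) : CE G S := by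
  refine ⟨p, fun v => p v + 8, ?_, ?_, ?_, ?_, ?_⟩
  · intro v hv
    exact (h0 v hv).1
  · intro v hv
    have h := h0 v hv
    omega
  · intro v hv
    omega
  · intro u hu v hv huv
    have h3 := h0 u hu
    have h4 := h0 v hv
    have h5 := h1 u hu v hv huv
    omega
  · intro u hu v hv huv
    have h3 := h0 u hu
    have h4 := h0 v hv
    have h5 := h1 u hu v hv huv
    refine ⟨fun _ => ?_, fun _ => h2 u hu v hv huv⟩
    dsimp only [bt]
    omega

theorem st_W3 (h1 : ST_PE1) (_ : ST_CEC) : ST_W3 := by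
  intro V G h a b c hd hab hac hbc ha hb hc
  classical
  have nab := hab.ne
  have nac := hac.ne
  have nbc := hbc.ne
  let p : V → ℤ := fun v => if v = h then 0 else if v = a then 2 else if v = b then 4 else 6
  have ph : p h = 0 := if_pos rfl
  have pa : p a = 2 := by
    dsimp only [p]
    rw [if_neg ha.symm, if_pos rfl]
  have pb : p b = 4 := by
    dsimp only [p]
    rw [if_neg hb.symm, if_neg nab.symm, if_pos rfl]
  have pc : p c = 6 := by
    dsimp only [p]
    rw [if_neg hc.symm, if_neg nac.symm, if_neg nbc.symm]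
  by_cases hall : G.Adj h a ∧ G.Adj h b ∧ G.Adj h c
  · obtain ⟨i1, i2, i3⟩ := hall
    refine w3_cl V G {h, a, b, c} p ?_ ?_ ?_
    · rintro v (e | e | e | e) <;> rw [e]
      · rw [ph]; norm_num
      · rw [pa]; norm_num
      · rw [pb]; norm_num
      · rw [pc]; norm_num
    · rintro u (e | e | e | e) v (e' | e' | e' | e') huv <;> rw [e, e'] <;>
        first
        | (exact absurd (e.trans e'.symm) huv)
        | (simp only [ph, pa, pb, pc]; norm_num)
    · rintro u (e | e | e | e) v (e' | e' | e' | e') huv <;> rw [e, e'] <;>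
        first
        | (exact absurd (e.trans e'.symm) huv)
        | assumption
        | (apply SimpleGraph.Adj.symm; assumption)
  · have h3 : CE G {a, b, c} := by
      refine w3_cl V G {a, b, c} p ?_ ?_ ?_
      · rintro v (e | e | e) <;> rw [e]
        · rw [pa]; norm_num
        · rw [pb]; norm_num
        · rw [pc]; norm_num
      · rintro u (e | e | e) v (e' | e' | e') huv <;> rw [e, e'] <;>
          first
          | (exact absurd (e.trans e'.symm) huv)
          | (simp only [pa, pb, pc]; norm_num)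
      · rintro u (e | e | e) v (e' | e' | e') huv <;> rw [e, e'] <;>
          first
          | (exact absurd (e.trans e'.symm) huv)
          | assumption
          | (apply SimpleGraph.Adj.symm; assumption)
    refine h1 V G {a, b, c} h h3 ?_ ?_
    · rintro (e | e | e)
      · exact ha e
      · exact hb e
      · exact hc e
    · have k1 : ¬ (G.Adj h a ∧ G.Adj h b) := fun ⟨x, y⟩ =>
        hall ⟨x, y, (hd a b c h hab hac hbc x.symm y.symm hc.symm).symm⟩
      have k2 : ¬ (G.Adj h a ∧ G.Adj h c) := fun ⟨x, y⟩ =>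
        hall ⟨x, (hd a c b h hac hab hbc.symm x.symm y.symm hb.symm).symm, y⟩
      have k3 : ¬ (G.Adj h b ∧ G.Adj h c) := fun ⟨x, y⟩ =>
        hall ⟨(hd b c a h hbc hab.symm hac.symm x.symm y.symm ha.symm).symm, x, y⟩
      rintro y (e | e | e) z (e' | e' | e') hy hz <;> rw [e] at hy <;> rw [e'] at hz <;>
        first
        | (exact e.trans e'.symm)
        | (exact (k1 ⟨hy, hz⟩).elim)
        | (exact (k2 ⟨hy, hz⟩).elim)
        | (exact (k3 ⟨hy, hz⟩).elim)
        | (exact (k1 ⟨hz, hy⟩).elim)
        | (exact (k2 ⟨hz, hy⟩).elim)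
        | (exact (k3 ⟨hz, hy⟩).elim)

end Pool.Agent.Helper24.FF
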